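import Mathlib
import Pool.Agent.H67.FS.Targets

set_option autoImplicit false

/-!
# Generic points over infinite fields; small linear algebra (MP_6f7589_ag)
-/

namespace Pool.Agent.H36.FS

open Pool.Agent.H67.FS

universe u

section Gen

variable {F : Type u} [Field F]

lemma exists_avoid [Infinite F] {V : Type*} [AddCommGroup V] [Module F V] {s : Type*} [Finite s]
    (W : s → Submodule F V) (hW : ∀ i, W i ≠ ⊤) : ∃ v : V, ∀ i, v ∉ W i := by
  by_contra hc
  push Not at hc
  have hcov : (⋃ i, (W i : Set V)) = Set.univ := by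
    ext v
    simp only [Set.mem_iUnion, Set.mem_univ, iff_true]
    exact hc v
  obtain ⟨i, hi⟩ := Subspace.exists_eq_top_of_iUnion_eq_univ hcov
  exact hW i hi

lemma span_ne_top_of_card (s : Finset (Fin 4 → F)) (hs : s.card ≤ 3) :
    Submodule.span F (s : Set (Fin 4 → F)) ≠ ⊤ := by
  intro h
  have h1 := finrank_span_finset_le_card (R := F) s
  rw [Set.finrank, h, finrank_top, Module.finrank_fintype_fun_eq_card, Fintype.card_fin] at h1
  omega

/-- a vector outside all spans of at most three vectors of a finite set -/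
lemma exists_gen_set [Infinite F] (T : Set (Fin 4 → F)) (hT : T.Finite) :
    ∃ d : Fin 4 → F, ∀ s : Finset (Fin 4 → F), (s : Set (Fin 4 → F)) ⊆ T → s.card ≤ 3 →
      d ∉ Submodule.span F (s : Set (Fin 4 → F)) := by
  classical
  let I := {s : Finset (Fin 4 → F) // s ∈ hT.toFinset.powerset ∧ s.card ≤ 3}
  have : Finite I := by
    apply Finite.of_injective (β := {s // s ∈ hT.toFinset.powerset}) (fun i => ⟨i.1, i.2.1⟩)
    intro i j h
    exact Subtype.ext (congrArg (fun z => z.1) h)
  obtain ⟨d, hd⟩ := exists_avoid (F := F) (s := I)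
    (fun i => Submodule.span F (i.1 : Set (Fin 4 → F)))
    (fun i => span_ne_top_of_card i.1 i.2.2)
  refine ⟨d, fun s hs hc => hd ⟨s, ?_, hc⟩⟩
  rw [Finset.mem_powerset]
  intro x hx
  rw [Set.Finite.mem_toFinset]
  exact hs hx

lemma li2_iff {V : Type*} [AddCommGroup V] [Module F V] (u v : V) :
    LinearIndependent F ![u, v] ↔ ∀ a b : F, a • u + b • v = 0 → a = 0 ∧ b = 0 :=
  LinearIndependent.pair_iff

lemma li3_iff {V : Type*} [AddCommGroup V] [Module F V] (u v w : V) :
    LinearIndependent F ![u, v, w] ↔
      ∀ a b c : F, a • u + b • v + c • w = 0 → a = 0 ∧ b = 0 ∧ c = 0 := by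
  rw [Fintype.linearIndependent_iff]
  constructor
  · intro h a b c habc
    have := h ![a, b, c] (by simpa [Fin.sum_univ_three] using habc)
    exact ⟨this 0, this 1, this 2⟩
  · intro h g hg i
    have h1 := h (g 0) (g 1) (g 2) (by simpa [Fin.sum_univ_three] using hg)
    fin_cases i
    · exact h1.1
    · exact h1.2.1
    · exact h1.2.2

lemma li4_iff {V : Type*} [AddCommGroup V] [Module F V] (u v w x : V) :
    LinearIndependent F ![u, v, w, x] ↔
      ∀ a b c d : F, a • u + b • v + c • w + d • x = 0 → a = 0 ∧ b = 0 ∧ c = 0 ∧ d = 0 := by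
  rw [Fintype.linearIndependent_iff]
  constructor
  · intro h a b c d habc
    have := h ![a, b, c, d] (by simpa [Fin.sum_univ_four] using habc)
    exact ⟨this 0, this 1, this 2, this 3⟩
  · intro h g hg i
    have h1 := h (g 0) (g 1) (g 2) (g 3) (by simpa [Fin.sum_univ_four] using hg)
    fin_cases i
    · exact h1.1
    · exact h1.2.1
    · exact h1.2.2.1
    · exact h1.2.2.2

lemma not_li3_of_rel {V : Type*} [AddCommGroup V] [Module F V] {u v w : V} (a b c : F)
    (h : a • u + b • v + c • w = 0) (hn : a ≠ 0 ∨ b ≠ 0 ∨ c ≠ 0) :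
    ¬ LinearIndependent F ![u, v, w] := by
  rw [li3_iff]
  intro hc
  obtain ⟨h1, h2, h3⟩ := hc a b c h
  rcases hn with hn | hn | hn
  · exact hn h1
  · exact hn h2
  · exact hn h3

variable {ι : Type}

/-- generic vector for a finite configuration -/
lemma exists_gen [Infinite F] [Finite ι] (e : ι → Fin 4 → F) :
    ∃ d : Fin 4 → F, ∀ (a b c : ι) (t α β γ : F), t • d + α • e a + β • e b + γ • e c = 0 →
      t = 0 := by
  classical
  obtain ⟨d, hd⟩ := exists_gen_set (F := F) (Set.range e) (Set.finite_range e)
  refine ⟨d, fun a b c t α β γ h => ?_⟩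
  by_contra ht
  apply hd {e a, e b, e c}
  · intro x hx
    simp only [Finset.coe_insert, Finset.coe_singleton, Set.mem_insert_iff,
      Set.mem_singleton_iff] at hx
    rcases hx with rfl | rfl | rfl
    · exact ⟨a, rfl⟩
    · exact ⟨b, rfl⟩
    · exact ⟨c, rfl⟩
  · exact Finset.card_le_three
  · have hd' : d = (-t⁻¹ * α) • e a + (-t⁻¹ * β) • e b + (-t⁻¹ * γ) • e c := by
      have h2 : t • d = -(α • e a + β • e b + γ • e c) := by
        rw [eq_neg_iff_add_eq_zero, ← h]
        abel
      calc d = t⁻¹ • (t • d) := by rw [smul_smul, inv_mul_cancel₀ ht, one_smul]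
        _ = _ := by rw [h2]; module
    rw [hd']
    apply Submodule.add_mem
    · apply Submodule.add_mem
      · exact Submodule.smul_mem _ _ (Submodule.subset_span (by simp))
      · exact Submodule.smul_mem _ _ (Submodule.subset_span (by simp))
    · exact Submodule.smul_mem _ _ (Submodule.subset_span (by simp))

lemma col_iff (e : ι → Fin 4 → F) (a b c : ι) : Col e a b c ↔
    ¬ ∀ x y z : F, x • e a + y • e b + z • e c = 0 → x = 0 ∧ y = 0 ∧ z = 0 := by
  rw [Col, li3_iff]

lemma col_swap (e : ι → Fin 4 → F) (a b c : ι) : Col e a b c ↔ Col e b a c := by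
  rw [col_iff, col_iff, not_iff_not]
  constructor
  · intro h x y z hx
    have := h y x z (by rw [← hx]; abel)
    tauto
  · intro h x y z hx
    have := h y x z (by rw [← hx]; abel)
    tauto

lemma col_rot (e : ι → Fin 4 → F) (a b c : ι) : Col e a b c ↔ Col e b c a := by
  rw [col_iff, col_iff, not_iff_not]
  constructor
  · intro h x y z hx
    have := h z x y (by rw [← hx]; abel)
    tauto
  · intro h x y z hx
    have := h y z x (by rw [← hx]; abel)
    tauto

/-- new/old pair -/
lemma new_old {e : ι → Fin 4 → F} {d : Fin 4 → F} (he : ∀ a, e a ≠ 0)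
    (hd : ∀ (a b c : ι) (t α β γ : F), t • d + α • e a + β • e b + γ • e c = 0 → t = 0)
    (o w a : ι) (α β t : F) (ht : t ≠ 0) :
    LinearIndependent F ![e a, α • e o + β • e w + t • d] := by
  rw [li2_iff]
  intro x y h
  have h1 := hd a o w (y * t) x (y * α) (y * β) (by rw [← h]; module)
  have hy : y = 0 := by
    rcases mul_eq_zero.mp h1 with h2 | h2
    · exact h2
    · exact absurd h2 ht
  subst hy
  rw [zero_smul, add_zero] at h
  rcases smul_eq_zero.mp h with h2 | h2
  · exact ⟨h2, rfl⟩
  · exact absurd h2 (he a)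

lemma coords {e : ι → Fin 4 → F} {d : Fin 4 → F} (hPL : PL e)
    (hd : ∀ (a b c : ι) (t α β γ : F), t • d + α • e a + β • e b + γ • e c = 0 → t = 0)
    (o w : ι) (how : o ≠ w) (α β t : F) (h : α • e o + β • e w + t • d = 0) :
    α = 0 ∧ β = 0 ∧ t = 0 := by
  have ht := hd o w w t α β 0 (by rw [← h]; module)
  subst ht
  have := (li2_iff _ _).mp (hPL o w how) α β (by rw [← h]; module)
  exact ⟨this.1, this.2, rfl⟩

/-- new/new pair -/
lemma new_new {e : ι → Fin 4 → F} {d : Fin 4 → F} (hPL : PL e)
    (hd : ∀ (a b c : ι) (t α β γ : F), t • d + α • e a + β • e b + γ • e c = 0 → t = 0)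
    (o w : ι) (how : o ≠ w) (α β t α' β' t' : F)
    (hm : α * β' - α' * β ≠ 0 ∨ α * t' - α' * t ≠ 0 ∨ β * t' - β' * t ≠ 0) :
    LinearIndependent F ![α • e o + β • e w + t • d, α' • e o + β' • e w + t' • d] := by
  rw [li2_iff]
  intro x y h
  obtain ⟨h1, h2, h3⟩ := coords hPL hd o w how (x * α + y * α') (x * β + y * β')
    (x * t + y * t') (by rw [← h]; module)
  rcases hm with hm | hm | hm
  · constructor
    · have : x * (α * β' - α' * β) = 0 := by linear_combination β' * h1 - α' * h2
      exact (mul_eq_zero.mp this).resolve_right hm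
    · have : y * (α * β' - α' * β) = 0 := by linear_combination α * h2 - β * h1
      exact (mul_eq_zero.mp this).resolve_right hm
  · constructor
    · have : x * (α * t' - α' * t) = 0 := by linear_combination t' * h1 - α' * h3
      exact (mul_eq_zero.mp this).resolve_right hm
    · have : y * (α * t' - α' * t) = 0 := by linear_combination α * h3 - t * h1
      exact (mul_eq_zero.mp this).resolve_right hm
  · constructor
    · have : x * (β * t' - β' * t) = 0 := by linear_combination t' * h2 - β' * h3
      exact (mul_eq_zero.mp this).resolve_right hm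
    · have : y * (β * t' - β' * t) = 0 := by linear_combination β * h3 - t * h2
      exact (mul_eq_zero.mp this).resolve_right hm

lemma li2_symm {V : Type*} [AddCommGroup V] [Module F V] {u v : V}
    (h : LinearIndependent F ![u, v]) : LinearIndependent F ![v, u] := by
  rw [li2_iff] at h ⊢
  intro a b hab
  have := h b a (by rw [← hab]; abel)
  tauto

/-- `PL` for an extension of a configuration by finitely many new points -/
lemma pl_elim {e : ι → Fin 4 → F} {n : ℕ} {τ : Fin n → Fin 4 → F} (hPL : PL e)
    (h1 : ∀ a j, LinearIndependent F ![e a, τ j])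
    (h2 : ∀ j k, j < k → LinearIndependent F ![τ j, τ k]) : PL (Sum.elim e τ) := by
  rintro (a | j) (b | k) hab
  · exact hPL a b (fun h => hab (by rw [h]))
  · exact h1 a k
  · exact li2_symm (h1 b j)
  · rcases lt_trichotomy j k with h | h | h
    · exact h2 j k h
    · exact absurd (by rw [h]) hab
    · exact li2_symm (h2 k j h)

end Gen

end Pool.Agent.H36.FS
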