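import Mathlib
import Pool.Agent.H67.FS.Targets
import Pool.Agent.H36.FS.Gen

set_option autoImplicit false

/-!
# Modules GADM and GADA: adding gadgets (MP_6f7589_ag)
-/

namespace Pool.Agent.H36.FS

open Pool.Agent.H67.FS

universe u

theorem GADM : T_GADM.{u} := by
  intro F _ _ ι _ e hPL he o i w x y m X Y hX0 hX1 hY0 hY1 how hi hx hy hm
  obtain ⟨d, hd⟩ := exists_gen (F := F) e
  have hY1' : (1 - Y) ≠ 0 := sub_ne_zero.mpr (Ne.symm hY1)
  have hX1' : (1 - X) ≠ 0 := sub_ne_zero.mpr (Ne.symm hX1)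
  have hXY : X * Y ≠ 0 := mul_ne_zero hX0 hY0
  let cα : Fin 4 → F := ![1, 0, 1, 1]
  let cβ : Fin 4 → F := ![0, 0, Y, X * Y]
  let ct : Fin 4 → F := ![1, 1, 1 - Y, 1 - Y]
  let τ : Fin 4 → Fin 4 → F := fun j => cα j • e o + cβ j • e w + ct j • d
  have hct : ∀ j, ct j ≠ 0 := by
    intro j
    fin_cases j <;> simp [ct, hY1']
  have hno : ∀ a j, LinearIndependent F ![e a, τ j] := fun a j =>
    new_old he hd o w a (cα j) (cβ j) (ct j) (hct j)
  have hPL' : PL (Sum.elim e τ) := by
    apply pl_elim hPL hno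
    intro j k hjk
    apply new_new hPL hd o w how
    fin_cases j <;> fin_cases k <;> simp [cα, cβ, ct, hY0, hX0] at hjk ⊢
    left
    intro h
    have h2 : Y * (X - 1) = 0 := by linear_combination h
    rcases mul_eq_zero.mp h2 with h3 | h3
    · exact hY0 h3
    · exact hX1 (sub_eq_zero.mp h3)
  have hne : ∀ j, τ j ≠ 0 := by
    intro j h0
    have := hd o w w (ct j) (cα j) (cβ j) 0 (by
      have : cα j • e o + cβ j • e w + ct j • d = 0 := h0
      rw [← this]; module)
    exact hct j this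
  refine ⟨τ, hPL', hne, .inr 0, .inr 1, .inr 2, .inr 3, ?_, ?_, ?_, ?_, ?_, ?_, ?_, ?_, ?_, ?_, ?_⟩
  · show LinearIndependent F ![τ 0, τ 1, τ 2]
    rw [li3_iff]
    intro a b c h
    obtain ⟨h1, h2, h3⟩ := coords hPL hd o w how (a + c) (c * Y) (a + b + c * (1 - Y)) (by
      rw [← h]
      simp only [τ, cα, cβ, ct]
      simp
      module)
    have hc : c = 0 := (mul_eq_zero.mp h2).resolve_right hY0
    subst hc
    have ha : a = 0 := by linear_combination h1
    subst ha
    refine ⟨rfl, ?_, rfl⟩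
    linear_combination h3
  · exact fun h => absurd (Sum.inr.inj h) (by decide)
  · exact fun h => absurd (Sum.inr.inj h) (by decide)
  · exact fun h => absurd (Sum.inr.inj h) (by decide)
  · intro z hz
    simp only [Set.mem_insert_iff, Set.mem_singleton_iff] at hz
    rcases hz with rfl | rfl | rfl | rfl | rfl | rfl <;>
      exact ⟨Sum.inl_ne_inr, Sum.inl_ne_inr, Sum.inl_ne_inr, Sum.inl_ne_inr⟩
  · show ¬ LinearIndependent F ![τ 0, τ 1, e o]
    apply not_li3_of_rel 1 (-1) (-1) _ (Or.inl one_ne_zero)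
    simp only [τ, cα, cβ, ct]
    simp
  · show ¬ LinearIndependent F ![τ 2, τ 3, e w]
    apply not_li3_of_rel 1 (-1) (-(Y * (1 - X))) _ (Or.inl one_ne_zero)
    simp only [τ, cα, cβ, ct]
    simp
    module
  · show ¬ LinearIndependent F ![τ 0, τ 2, e i]
    apply not_li3_of_rel (-(1 - Y)) 1 (-Y) _ (Or.inr (Or.inl one_ne_zero))
    simp only [τ, cα, cβ, ct, hi]
    simp
    module
  · show ¬ LinearIndependent F ![τ 1, τ 3, e m]
    apply not_li3_of_rel (-(1 - Y)) 1 (-1) _ (Or.inr (Or.inl one_ne_zero))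
    simp only [τ, cα, cβ, ct, hm]
    simp
    module
  · show ¬ LinearIndependent F ![τ 0, τ 3, e x]
    apply not_li3_of_rel (-(1 - Y)) 1 (-Y) _ (Or.inr (Or.inl one_ne_zero))
    simp only [τ, cα, cβ, ct, hx]
    simp
    module
  · show ¬ LinearIndependent F ![τ 1, τ 2, e y]
    apply not_li3_of_rel (-(1 - Y)) 1 (-1) _ (Or.inr (Or.inl one_ne_zero))
    simp only [τ, cα, cβ, ct, hy]
    simp
    module

theorem GADA : T_GADA.{u} := by
  intro F _ _ ι _ e hPL he o i w x y X Y hX0 hY0 hXY how hi hx hy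
  obtain ⟨d, hd⟩ := exists_gen (F := F) e
  have hY : Y = 1 - X := by linear_combination hXY
  let cα : Fin 4 → F := ![1, 1, 1, 1]
  let cβ : Fin 4 → F := ![0, -X, 0, X ^ 2]
  let ct : Fin 4 → F := ![1, 1, Y, Y]
  let τ : Fin 4 → Fin 4 → F := fun j => cα j • e o + cβ j • e w + ct j • d
  have hct : ∀ j, ct j ≠ 0 := by
    intro j
    fin_cases j <;> simp [ct, hY0]
  have hY1 : Y - 1 ≠ 0 := by
    rw [hY]
    intro h
    apply hX0
    linear_combination -h
  have hno : ∀ a j, LinearIndependent F ![e a, τ j] := fun a j =>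
    new_old he hd o w a (cα j) (cβ j) (ct j) (hct j)
  have hPL' : PL (Sum.elim e τ) := by
    apply pl_elim hPL hno
    intro j k hjk
    apply new_new hPL hd o w how
    fin_cases j <;> fin_cases k <;> simp [cα, cβ, ct, hY0, hX0, hY1] at hjk ⊢
  have hne : ∀ j, τ j ≠ 0 := by
    intro j h0
    have := hd o w w (ct j) (cα j) (cβ j) 0 (by
      have : cα j • e o + cβ j • e w + ct j • d = 0 := h0
      rw [← this]; module)
    exact hct j this
  refine ⟨τ, hPL', hne, .inr 0, .inr 1, .inr 2, .inr 3, ?_, ?_, ?_, ?_, ?_, ?_, ?_, ?_, ?_, ?_, ?_⟩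
  · show LinearIndependent F ![τ 0, τ 1, τ 2]
    rw [li3_iff]
    intro a b c h
    obtain ⟨h1, h2, h3⟩ := coords hPL hd o w how (a + b + c) (-(b * X)) (a + b + c * Y) (by
      rw [← h]
      simp only [τ, cα, cβ, ct]
      simp
      module)
    have hb : b = 0 := by
      rcases mul_eq_zero.mp (neg_eq_zero.mp h2) with h4 | h4
      · exact h4
      · exact absurd h4 hX0
    subst hb
    have hc : c * (Y - 1) = 0 := by linear_combination h3 - h1
    have hc' : c = 0 := (mul_eq_zero.mp hc).resolve_right hY1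
    subst hc'
    refine ⟨?_, rfl, rfl⟩
    linear_combination h1
  · exact fun h => absurd (Sum.inr.inj h) (by decide)
  · exact fun h => absurd (Sum.inr.inj h) (by decide)
  · exact fun h => absurd (Sum.inr.inj h) (by decide)
  · intro z hz
    simp only [Set.mem_insert_iff, Set.mem_singleton_iff] at hz
    rcases hz with rfl | rfl | rfl | rfl | rfl <;>
      exact ⟨Sum.inl_ne_inr, Sum.inl_ne_inr, Sum.inl_ne_inr, Sum.inl_ne_inr⟩
  · show ¬ LinearIndependent F ![τ 0, τ 1, e w]
    apply not_li3_of_rel 1 (-1) (-X) _ (Or.inl one_ne_zero)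
    simp only [τ, cα, cβ, ct]
    simp
    module
  · show ¬ LinearIndependent F ![τ 2, τ 3, e w]
    apply not_li3_of_rel 1 (-1) (X ^ 2) _ (Or.inl one_ne_zero)
    simp only [τ, cα, cβ, ct]
    simp
    module
  · show ¬ LinearIndependent F ![τ 0, τ 2, e o]
    apply not_li3_of_rel (-Y) 1 (-X) _ (Or.inr (Or.inl one_ne_zero))
    simp only [τ, cα, cβ, ct, hY]
    simp
    module
  · show ¬ LinearIndependent F ![τ 1, τ 3, e i]
    apply not_li3_of_rel (-Y) 1 (-X) _ (Or.inr (Or.inl one_ne_zero))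
    simp only [τ, cα, cβ, ct, hi, hY]
    simp
    module
  · show ¬ LinearIndependent F ![τ 0, τ 3, e x]
    apply not_li3_of_rel (-Y) 1 (-X) _ (Or.inr (Or.inl one_ne_zero))
    simp only [τ, cα, cβ, ct, hx, hY]
    simp
    module
  · show ¬ LinearIndependent F ![τ 1, τ 2, e y]
    apply not_li3_of_rel (-Y) 1 (-X) _ (Or.inr (Or.inl one_ne_zero))
    simp only [τ, cα, cβ, ct, hy, hY]
    simp
    module

end Pool.Agent.H36.FS
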