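import Mathlib
import Pool.Agent.H67.FS.Targets
import Pool.Agent.H36.FS.Gen

set_option autoImplicit false

/-!
# Module GP8: adding eight generic points (MP_6f7589_ag)
-/

namespace Pool.Agent.H36.FS

open Pool.Agent.H67.FS

universe u

section seq

variable {V : Type u} (P : (k : ℕ) → ((j : ℕ) → j < k → V) → V → Prop)
  (h : ∀ k g, ∃ v, P k g v)

noncomputable def genSeq : ℕ → V
  | k => Classical.choose (h k (fun j _ => genSeq j))

lemma genSeq_spec (k : ℕ) : P k (fun j _ => genSeq P h j) (genSeq P h k) := by
  rw [genSeq]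
  exact Classical.choose_spec (h k (fun j _ => genSeq P h j))

end seq

section

variable {F : Type u} [Field F] {ι : Type}

/-- the rank of a point in the extended configuration -/
def rho {n : ℕ} : ι ⊕ Fin n → ℕ
  | .inl _ => 0
  | .inr j => j.val + 1

/-- a sequence of generic points -/
lemma exists_generic_points [Infinite F] [Finite ι] (e : ι → Fin 4 → F) (n : ℕ) :
    ∃ τ : Fin n → Fin 4 → F, ∀ (k : Fin n) (s : Finset (ι ⊕ Fin n)), s.card ≤ 3 →
      (∀ x ∈ s, rho x < rho (Sum.inr k : ι ⊕ Fin n)) →
      τ k ∉ Submodule.span F (Sum.elim e τ '' (s : Set (ι ⊕ Fin n))) := by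
  classical
  let T : (k : ℕ) → ((j : ℕ) → j < k → (Fin 4 → F)) → Set (Fin 4 → F) :=
    fun k g => Set.range e ∪ Set.range (fun j : Fin k => g j.1 j.2)
  have hT : ∀ k g, (T k g).Finite := fun k g => (Set.finite_range _).union (Set.finite_range _)
  let P : (k : ℕ) → ((j : ℕ) → j < k → (Fin 4 → F)) → (Fin 4 → F) → Prop := fun k g v =>
    ∀ s : Finset (Fin 4 → F), (s : Set (Fin 4 → F)) ⊆ T k g → s.card ≤ 3 →
      v ∉ Submodule.span F (s : Set (Fin 4 → F))
  have hP : ∀ k g, ∃ v, P k g v := fun k g => exists_gen_set (T k g) (hT k g)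
  let f := genSeq P hP
  have hf : ∀ k, P k (fun j _ => f j) (f k) := genSeq_spec P hP
  refine ⟨fun k => f k, fun k s hs hsk => ?_⟩
  have h1 := hf k (s.image (Sum.elim e (fun k : Fin n => f k))) (by
    intro x hx
    rw [Finset.coe_image] at hx
    obtain ⟨y, hy, rfl⟩ := hx
    have h2 := hsk y hy
    rcases y with a | j
    · exact Or.inl ⟨a, rfl⟩
    · right
      simp only [rho, add_lt_add_iff_right, Fin.val_fin_lt] at h2
      exact ⟨⟨j.1, h2⟩, rfl⟩) (Finset.card_image_le.trans hs)
  rw [Finset.coe_image] at h1
  exact h1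

lemma rho_inj {n : ℕ} {x y : ι ⊕ Fin n} (h : rho x = rho y) (h0 : 0 < rho x) : x = y := by
  rcases x with a | j
  · simp [rho] at h0
  · rcases y with b | k
    · simp [rho] at h
    · simp only [rho, add_left_inj] at h
      rw [Fin.ext h]

/-- general independence principle -/
lemma indep_of_generic [DecidableEq ι] {n : ℕ} {e : ι → Fin 4 → F} {τ : Fin n → Fin 4 → F}
    (hPL : PL e) (he : ∀ a, e a ≠ 0)
    (hτ : ∀ (k : Fin n) (s : Finset (ι ⊕ Fin n)), s.card ≤ 3 →
      (∀ x ∈ s, rho x < rho (Sum.inr k : ι ⊕ Fin n)) →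
      τ k ∉ Submodule.span F (Sum.elim e τ '' (s : Set (ι ⊕ Fin n))))
    {m : ℕ} (hm : m ≤ 4) (x : Fin m → ι ⊕ Fin n) (hx : Function.Injective x)
    (hold : (Finset.univ.filter (fun i => rho (x i) = 0)).card ≤ 2) :
    LinearIndependent F (fun i => Sum.elim e τ (x i)) := by
  classical
  rw [Fintype.linearIndependent_iff]
  intro c hc
  by_contra hne
  push Not at hne
  obtain ⟨i0, hi0⟩ := hne
  let S := Finset.univ.filter (fun i => c i ≠ 0)
  have hS : S.Nonempty := ⟨i0, by simp [S, hi0]⟩
  obtain ⟨i, hiS, hmax⟩ := Finset.exists_max_image S (fun i => rho (x i)) hS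
  have hci : c i ≠ 0 := by simpa [S] using hiS
  have hsum : ∑ j ∈ S, c j • Sum.elim e τ (x j) = 0 := by
    rw [← hc]
    apply Finset.sum_subset (Finset.subset_univ _)
    intro j _ hj
    have : c j = 0 := by
      by_contra h
      exact hj (by simp [S, h])
    rw [this, zero_smul]
  rcases Nat.eq_zero_or_pos (rho (x i)) with h0 | hpos
  · -- all points of S are old
    have hold' : ∀ j ∈ S, rho (x j) = 0 := by
      intro j hj
      have := hmax j hj
      omega
    have hSc : S.card ≤ 2 := by
      refine le_trans (Finset.card_le_card ?_) hold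
      intro j hj
      simp [hold' j hj]
    have hS1 : 1 ≤ S.card := Finset.card_pos.mpr hS
    have hinl : ∀ j ∈ S, ∃ a, x j = Sum.inl a := by
      intro j hj
      have := hold' j hj
      rcases hxj : x j with a | k
      · exact ⟨a, rfl⟩
      · rw [hxj] at this
        simp [rho] at this
    rcases Nat.lt_or_ge S.card 2 with h2 | h2
    · have : S.card = 1 := by omega
      obtain ⟨j, hj⟩ := Finset.card_eq_one.mp this
      rw [hj] at hsum hiS hinl
      rw [Finset.sum_singleton] at hsum
      rw [Finset.mem_singleton] at hiS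
      subst hiS
      obtain ⟨a, ha⟩ := hinl i (Finset.mem_singleton_self _)
      rw [ha] at hsum
      rcases smul_eq_zero.mp hsum with h3 | h3
      · exact hci h3
      · exact he a h3
    · have : S.card = 2 := by omega
      obtain ⟨j, k, hjk, hj⟩ := Finset.card_eq_two.mp this
      rw [hj, Finset.sum_pair hjk] at hsum
      obtain ⟨a, ha⟩ := hinl j (by rw [hj]; simp)
      obtain ⟨b, hb⟩ := hinl k (by rw [hj]; simp)
      rw [ha, hb] at hsum
      have hab : a ≠ b := fun h => hjk (hx (by rw [ha, hb, h]))
      have h3 := (li2_iff _ _).mp (hPL a b hab) (c j) (c k) hsum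
      rw [hj, Finset.mem_insert, Finset.mem_singleton] at hiS
      rcases hiS with rfl | rfl
      · exact hci h3.1
      · exact hci h3.2
  · -- the maximal point is new
    obtain ⟨k, hk⟩ : ∃ k, x i = Sum.inr k := by
      rcases hxi : x i with a | k
      · rw [hxi] at hpos
        simp [rho] at hpos
      · exact ⟨k, rfl⟩
    apply hτ k ((S.erase i).image x)
    · refine Finset.card_image_le.trans ?_
      rw [Finset.card_erase_of_mem hiS]
      have : S.card ≤ m := by
        refine (Finset.card_le_univ _).trans ?_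
        rw [Fintype.card_fin]
      omega
    · intro y hy
      rw [Finset.mem_image] at hy
      obtain ⟨j, hj, rfl⟩ := hy
      rw [Finset.mem_erase] at hj
      have h1 := hmax j hj.2
      rw [← hk]
      refine lt_of_le_of_ne h1 ?_
      intro h2
      have h3 := rho_inj h2.symm hpos
      exact hj.1 (hx h3.symm)
    · have h1 : c i • Sum.elim e τ (x i) + ∑ j ∈ S.erase i, c j • Sum.elim e τ (x j) = 0 := by
        rw [Finset.add_sum_erase S (fun j => c j • Sum.elim e τ (x j)) hiS]
        exact hsum
      have h2 : τ k = ∑ j ∈ S.erase i, (-(c i)⁻¹ * c j) • Sum.elim e τ (x j) := by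
        have h3 : c i • τ k = - ∑ j ∈ S.erase i, c j • Sum.elim e τ (x j) := by
          rw [eq_neg_iff_add_eq_zero, ← h1, hk]
          rfl
        calc τ k = (c i)⁻¹ • (c i • τ k) := by rw [smul_smul, inv_mul_cancel₀ hci, one_smul]
          _ = _ := by
            rw [h3, smul_neg, Finset.smul_sum, ← Finset.sum_neg_distrib]
            apply Finset.sum_congr rfl
            intro j _
            rw [smul_smul, ← neg_smul, neg_mul]
      rw [h2]
      apply Submodule.sum_mem
      intro j hj
      apply Submodule.smul_mem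
      apply Submodule.subset_span
      refine ⟨x j, ?_, rfl⟩
      rw [Finset.coe_image]
      exact ⟨j, hj, rfl⟩

end

theorem GP8 : T_GP8.{u} := by
  intro F _ _ ι _ _ e hPL he
  obtain ⟨τ, hτ⟩ := exists_generic_points (F := F) e 8
  have hne : ∀ j, τ j ≠ 0 := by
    intro j h
    apply hτ j ∅ (by simp) (by simp)
    rw [h]
    exact Submodule.zero_mem _
  have hPL' : PL (Sum.elim e τ) := by
    intro a b hab
    have := indep_of_generic hPL he hτ (m := 2) (by norm_num) ![a, b] (by
      intro i j hij
      fin_cases i <;> fin_cases j <;> simp_all [hab.symm])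
      ((Finset.card_le_univ _).trans (by simp))
    convert this using 1
    funext i
    fin_cases i <;> rfl
  refine ⟨τ, hPL', hne, ?_, ?_⟩
  · intro S hS
    -- one of the four pairs avoids S
    have : ∃ q : Fin 4, ∀ r : Fin 2, (Sum.inr ⟨2 * q.1 + r.1, by omega⟩ : ι ⊕ Fin 8) ∉ S := by
      by_contra hc
      push Not at hc
      choose r hr using hc
      have hinj : Function.Injective
          (fun q : Fin 4 => (Sum.inr ⟨2 * q.1 + (r q).1, by omega⟩ : ι ⊕ Fin 8)) := by
        intro q q' h
        simp only [Sum.inr.injEq, Fin.mk.injEq] at h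
        apply Fin.ext
        omega
      have hsub : Finset.univ.image
          (fun q : Fin 4 => (Sum.inr ⟨2 * q.1 + (r q).1, by omega⟩ : ι ⊕ Fin 8)) ⊆ S := by
        intro z hz
        rw [Finset.mem_image] at hz
        obtain ⟨q, _, rfl⟩ := hz
        exact hr q
      have := Finset.card_le_card hsub
      rw [Finset.card_image_of_injective _ hinj, Finset.card_univ, Fintype.card_fin] at this
      omega
    obtain ⟨q, hq⟩ := this
    refine ⟨.inr ⟨2 * q.1 + 0, by omega⟩, .inr ⟨2 * q.1 + 1, by omega⟩, ?_, hq 0, hq 1, ?_⟩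
    · simp
    · intro a b hab hag hah hbg hbh
      set g : ι ⊕ Fin 8 := .inr ⟨2 * q.1 + 0, by omega⟩ with hg
      set h : ι ⊕ Fin 8 := .inr ⟨2 * q.1 + 1, by omega⟩ with hh
      have hgh : g ≠ h := by
        rw [hg, hh]
        simp
      have := indep_of_generic hPL he hτ (m := 4) (by norm_num) ![g, h, a, b] (by
        intro i j hij
        fin_cases i <;> fin_cases j <;> simp_all [hab.symm]) (by
        have hg0 : rho g ≠ 0 := by rw [hg]; simp [rho]
        have hh0 : rho h ≠ 0 := by rw [hh]; simp [rho]
        have : (Finset.univ.filter (fun i => rho ((![g, h, a, b] : Fin 4 → ι ⊕ Fin 8) i) = 0)) ⊆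
            {2, 3} := by
          intro i hi
          rw [Finset.mem_filter] at hi
          fin_cases i
          · exact absurd hi.2 hg0
          · exact absurd hi.2 hh0
          · simp
          · simp
        exact (Finset.card_le_card this).trans Finset.card_le_two)
      convert this using 1
      funext i
      fin_cases i <;> rfl
  · intro a b c hab hac hbc hcol
    by_contra hnew
    have hnew' : rho a ≠ 0 ∨ rho b ≠ 0 ∨ rho c ≠ 0 := by
      by_contra hc
      push Not at hc
      obtain ⟨h1, h2, h3⟩ := hc
      rcases a with a | a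
      · rcases b with b | b
        · rcases c with c | c
          · exact hnew ⟨a, b, c, rfl, rfl, rfl⟩
          · simp [rho] at h3
        · simp [rho] at h2
      · simp [rho] at h1
    apply hcol
    have := indep_of_generic hPL he hτ (m := 3) (by norm_num) ![a, b, c] (by
        intro i j hij
        fin_cases i <;> fin_cases j <;> simp_all [hab.symm, hac.symm, hbc.symm]) (by
        obtain ⟨i0, hi0⟩ : ∃ i0, rho ((![a, b, c] : Fin 3 → ι ⊕ Fin 8) i0) ≠ 0 := by
          rcases hnew' with h | h | h
          · exact ⟨0, h⟩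
          · exact ⟨1, h⟩
          · exact ⟨2, h⟩
        refine (Finset.card_le_card (t := Finset.univ.erase i0) ?_).trans (by
          rw [Finset.card_erase_of_mem (Finset.mem_univ _)]; simp)
        intro i hi
        rw [Finset.mem_filter] at hi
        rw [Finset.mem_erase]
        exact ⟨fun h => hi0 (h ▸ hi.2), Finset.mem_univ _⟩)
    convert this using 1
    funext i
    fin_cases i <;> rfl

end Pool.Agent.H36.FS
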