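import Mathlib
import Pool.Agent.H67.FS.Targets
import Pool.Agent.H36.FS.Gen

set_option autoImplicit false

/-!
# Module TAIL: adding a tail line through a point (MP_6f7589_ag)
-/

namespace Pool.Agent.H36.FS

open Pool.Agent.H67.FS

universe u

theorem TAIL : T_TAIL.{u} := by
  intro F _ _ ι _ e hPL he p n
  obtain ⟨g, hg⟩ := exists_gen (F := F) e
  -- distinct nonzero scalars
  have hinf : ({0}ᶜ : Set F).Infinite := (Set.finite_singleton (0 : F)).infinite_compl
  let emb := hinf.natEmbedding
  let lam : Fin n → F := fun j => (emb j : F)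
  have hlam0 : ∀ j, lam j ≠ 0 := fun j => (emb j).2
  have hlam : Function.Injective lam := by
    intro j k h
    have : emb j = emb k := Subtype.ext h
    exact Fin.ext (emb.injective this)
  let τ : Fin n → Fin 4 → F := fun j => (1 : F) • e p + (0 : F) • e p + lam j • g
  have hno : ∀ a j, LinearIndependent F ![e a, τ j] := fun a j =>
    new_old he hg p p a 1 0 (lam j) (hlam0 j)
  have hpg : ∀ x y : F, x • e p + y • g = 0 → x = 0 ∧ y = 0 := by
    intro x y h
    have hy := hg p p p y x 0 0 (by rw [← h]; module)
    subst hy
    rw [zero_smul, add_zero] at h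
    exact ⟨(smul_eq_zero.mp h).resolve_right (he p), rfl⟩
  have hτ : ∀ j, τ j = e p + lam j • g := by
    intro j
    simp only [τ]
    module
  have hnn : ∀ j k, j ≠ k → LinearIndependent F ![τ j, τ k] := by
    intro j k hjk
    rw [li2_iff]
    intro x y h
    obtain ⟨h1, h2⟩ := hpg (x + y) (x * lam j + y * lam k) (by
      rw [← h, hτ, hτ]; module)
    have h3 : x * (lam j - lam k) = 0 := by linear_combination h2 - lam k * h1
    have h4 : lam j - lam k ≠ 0 := sub_ne_zero.mpr (fun h => hjk (hlam h))
    have hx : x = 0 := (mul_eq_zero.mp h3).resolve_right h4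
    subst hx
    exact ⟨rfl, by linear_combination h1⟩
  have hPL' : PL (Sum.elim e τ) := pl_elim hPL hno (fun j k hjk => hnn j k (ne_of_lt hjk))
  have hne : ∀ j, τ j ≠ 0 := by
    intro j h0
    have := (hpg 1 (lam j) (by rw [← h0, hτ]; module)).1
    exact one_ne_zero this
  -- collinearities
  have c1 : ∀ a b j, a ≠ b → LinearIndependent F ![e a, e b, τ j] := by
    intro a b j hab
    rw [li3_iff]
    intro x y z h
    have hz := hg a b p (z * lam j) x y z (by rw [← h, hτ]; module)
    have hz' : z = 0 := (mul_eq_zero.mp hz).resolve_right (hlam0 j)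
    subst hz'
    have := (li2_iff _ _).mp (hPL a b hab) x y (by rw [← h]; module)
    exact ⟨this.1, this.2, rfl⟩
  have c2 : ∀ a j k, a ≠ p → j ≠ k → LinearIndependent F ![e a, τ j, τ k] := by
    intro a j k hap hjk
    rw [li3_iff]
    intro x y z h
    have h1 := hg a p p (y * lam j + z * lam k) x (y + z) 0 (by rw [← h, hτ, hτ]; module)
    have h2 := (li2_iff _ _).mp (hPL a p hap) x (y + z) (by
      have : (y * lam j + z * lam k) • g + (x • e a + (y + z) • e p) = 0 := by
        rw [← h, hτ, hτ]; module
      rw [h1, zero_smul, zero_add] at this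
      exact this)
    have h3 : y * (lam j - lam k) = 0 := by linear_combination h1 - lam k * h2.2
    have h4 : lam j - lam k ≠ 0 := sub_ne_zero.mpr (fun h => hjk (hlam h))
    have hy : y = 0 := (mul_eq_zero.mp h3).resolve_right h4
    subst hy
    exact ⟨h2.1, rfl, by linear_combination h2.2⟩
  have c2' : ∀ j k, j ≠ k → ¬ LinearIndependent F ![e p, τ j, τ k] := by
    intro j k hjk
    apply not_li3_of_rel (lam j - lam k) (lam k) (- lam j) _ (Or.inr (Or.inl (hlam0 k)))
    rw [hτ, hτ]
    module
  have c3 : ∀ j k l, j ≠ k → ¬ LinearIndependent F ![τ j, τ k, τ l] := by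
    intro j k l hjk
    apply not_li3_of_rel (lam k - lam l) (lam l - lam j) (lam j - lam k) _
      (Or.inr (Or.inr (sub_ne_zero.mpr (fun h => hjk (hlam h)))))
    rw [hτ, hτ, hτ]
    module
  -- the ordered cases
  have C1 : ∀ a b j, a ≠ b → ¬ Col (Sum.elim e τ) (.inl a) (.inl b) (.inr j) := by
    intro a b j hab h
    exact h (c1 a b j hab)
  have C2 : ∀ a j k, j ≠ k → (Col (Sum.elim e τ) (.inl a) (.inr j) (.inr k) ↔ a = p) := by
    intro a j k hjk
    constructor
    · intro h
      by_contra hap
      exact h (c2 a j k hap hjk)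
    · rintro rfl
      exact c2' j k hjk
  have C3 : ∀ j k l, j ≠ k → Col (Sum.elim e τ) (.inr j) (.inr k) (.inr l) := by
    intro j k l hjk
    exact c3 j k l hjk
  refine ⟨τ, hPL', hne, ?_⟩
  rintro (a | j) (b | k) (c | l) hab hac hbc
  · constructor
    · intro h
      exact Or.inl ⟨a, b, c, rfl, rfl, rfl, h⟩
    · rintro (⟨a', b', c', h1, h2, h3, h4⟩ | h)
      · rw [Sum.inl.inj h1, Sum.inl.inj h2, Sum.inl.inj h3]
        exact h4
      · exfalso
        have h1 := h (.inl a) (by simp)
        have h2 := h (.inl b) (by simp)
        simp only [Sum.inl.injEq, reduceCtorEq, exists_false, or_false] at h1 h2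
        exact hab (by rw [h1, h2])
  · have hab' : a ≠ b := fun h => hab (by rw [h])
    constructor
    · intro h
      exact absurd h (C1 a b l hab')
    · rintro (⟨a', b', c', h1, h2, h3, h4⟩ | h)
      · exact absurd h3 (by simp)
      · exfalso
        have h1 := h (.inl a) (by simp)
        have h2 := h (.inl b) (by simp)
        simp only [Sum.inl.injEq, reduceCtorEq, exists_false, or_false] at h1 h2
        exact hab (by rw [h1, h2])
  · have hac' : a ≠ c := fun h => hac (by rw [h])
    constructor
    · intro h
      rw [col_swap, col_rot] at h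
      exact absurd h (C1 a c k hac')
    · rintro (⟨a', b', c', h1, h2, h3, h4⟩ | h)
      · exact absurd h2 (by simp)
      · exfalso
        have h1 := h (.inl a) (by simp)
        have h2 := h (.inl c) (by simp)
        simp only [Sum.inl.injEq, reduceCtorEq, exists_false, or_false] at h1 h2
        exact hac (by rw [h1, h2])
  · have hkl : k ≠ l := fun h => hbc (by rw [h])
    rw [C2 a k l hkl]
    constructor
    · rintro rfl
      right
      intro z hz
      simp only [Set.mem_insert_iff, Set.mem_singleton_iff] at hz
      rcases hz with rfl | rfl | rfl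
      · exact Or.inl rfl
      · exact Or.inr ⟨k, rfl⟩
      · exact Or.inr ⟨l, rfl⟩
    · rintro (⟨a', b', c', h1, h2, h3, h4⟩ | h)
      · exact absurd h2 (by simp)
      · have h1 := h (.inl a) (by simp)
        simpa using h1
  · have hbc' : b ≠ c := fun h => hbc (by rw [h])
    constructor
    · intro h
      rw [col_rot] at h
      exact absurd h (C1 b c j hbc')
    · rintro (⟨a', b', c', h1, h2, h3, h4⟩ | h)
      · exact absurd h1 (by simp)
      · exfalso
        have h1 := h (.inl b) (by simp)
        have h2 := h (.inl c) (by simp)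
        simp only [Sum.inl.injEq, reduceCtorEq, exists_false, or_false] at h1 h2
        exact hbc (by rw [h1, h2])
  · have hjl : j ≠ l := fun h => hac (by rw [h])
    rw [col_swap, C2 b j l hjl]
    constructor
    · rintro rfl
      right
      intro z hz
      simp only [Set.mem_insert_iff, Set.mem_singleton_iff] at hz
      rcases hz with rfl | rfl | rfl
      · exact Or.inr ⟨j, rfl⟩
      · exact Or.inl rfl
      · exact Or.inr ⟨l, rfl⟩
    · rintro (⟨a', b', c', h1, h2, h3, h4⟩ | h)
      · exact absurd h1 (by simp)
      · have h1 := h (.inl b) (by simp)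
        simpa using h1
  · have hjk : j ≠ k := fun h => hab (by rw [h])
    rw [col_rot, col_rot, C2 c j k hjk]
    constructor
    · rintro rfl
      right
      intro z hz
      simp only [Set.mem_insert_iff, Set.mem_singleton_iff] at hz
      rcases hz with rfl | rfl | rfl
      · exact Or.inr ⟨j, rfl⟩
      · exact Or.inr ⟨k, rfl⟩
      · exact Or.inl rfl
    · rintro (⟨a', b', c', h1, h2, h3, h4⟩ | h)
      · exact absurd h1 (by simp)
      · have h1 := h (.inl c) (by simp)
        simpa using h1
  · have hjk : j ≠ k := fun h => hab (by rw [h])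
    constructor
    · intro _
      right
      intro z hz
      simp only [Set.mem_insert_iff, Set.mem_singleton_iff] at hz
      rcases hz with rfl | rfl | rfl
      · exact Or.inr ⟨j, rfl⟩
      · exact Or.inr ⟨k, rfl⟩
      · exact Or.inr ⟨l, rfl⟩
    · intro _
      exact C3 j k l hjk

end Pool.Agent.H36.FS
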