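import Mathlib
import Pool.Agent.H67.FS.Targets
import Pool.Agent.H36.FS.Gen
import Pool.Agent.H36.FS.TAIL

set_option autoImplicit false

/-!
# Module MARK: making the degrees of marked points unique (MP_6f7589_ag)
-/

namespace Pool.Agent.H36.FS

open Pool.Agent.H67.FS

universe u

section

variable {F : Type u} [Field F] {ι : Type}

def Nb (e : ι → Fin 4 → F) (a : ι) : Set (ι × ι) :=
  {p | p.1 ≠ p.2 ∧ p.1 ≠ a ∧ p.2 ≠ a ∧ Col e a p.1 p.2}

lemma deg_eq (e : ι → Fin 4 → F) (a : ι) : deg e a = (Nb e a).ncard := by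
  rw [← Nat.card_coe_set_eq]
  rfl

lemma deg_comp {κ : Type} (e : ι → Fin 4 → F) (φ : κ ≃ ι) (a : κ) :
    deg (fun x => e (φ x)) a = deg e (φ a) := by
  unfold deg
  apply Nat.card_congr
  refine Equiv.subtypeEquiv (Equiv.prodCongr φ φ) ?_
  rintro ⟨b, c⟩
  simp only [Equiv.prodCongr_apply, Prod.map_apply, ne_eq, EmbeddingLike.apply_eq_iff_eq]
  rfl

def Bset (κ : Type) (n : ℕ) : Set ((κ ⊕ Fin n) × (κ ⊕ Fin n)) :=
  (fun q : Fin n × Fin n => (Sum.inr q.1, Sum.inr q.2)) '' {q | q.1 ≠ q.2}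

lemma Bset_ncard (κ : Type) (n : ℕ) : (Bset κ n).ncard = n * n - n := by
  classical
  rw [Bset, Set.ncard_image_of_injective]
  · have : {q : Fin n × Fin n | q.1 ≠ q.2} = ((Finset.univ : Finset (Fin n)).offDiag : Set _) := by
      ext q
      simp
    rw [this, Set.ncard_coe_finset, Finset.offDiag_card, Finset.card_univ, Fintype.card_fin]
  · rintro ⟨a, b⟩ ⟨c, d⟩ h
    simp only [Prod.mk.injEq, Sum.inr.injEq] at h
    exact Prod.ext h.1 h.2

variable {κ : Type} [Finite κ] {n : ℕ} (e : κ → Fin 4 → F) (p : κ) (τ : Fin n → Fin 4 → F)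
  (h : ∀ a b c : κ ⊕ Fin n, a ≠ b → a ≠ c → b ≠ c →
        (Col (Sum.elim e τ) a b c ↔
          (∃ a' b' c', a = .inl a' ∧ b = .inl b' ∧ c = .inl c' ∧ Col e a' b' c') ∨
          (∀ z ∈ ({a, b, c} : Set (κ ⊕ Fin n)), z = .inl p ∨ ∃ j, z = .inr j)))

include h

omit [Finite κ] in
lemma deg_old (a : κ) (hap : a ≠ p) : deg (Sum.elim e τ) (.inl a) = deg e a := by
  rw [deg_eq, deg_eq]
  have hinj : Function.Injective (Prod.map Sum.inl Sum.inl : κ × κ → (κ ⊕ Fin n) × (κ ⊕ Fin n)) :=
    Sum.inl_injective.prodMap Sum.inl_injective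
  rw [← Set.ncard_image_of_injective (Nb e a) hinj]
  congr 1
  ext ⟨b, c⟩
  constructor
  · rintro ⟨hbc, hba, hca, hcol⟩
    rw [h _ _ _ (Ne.symm hba) (Ne.symm hca) hbc] at hcol
    rcases hcol with ⟨a', b', c', h1, h2, h3, h4⟩ | hcol
    · have h1' := Sum.inl.inj h1
      subst h1'
      simp only at h2 h3
      subst h2
      subst h3
      refine ⟨(b', c'), ⟨?_, ?_, ?_, h4⟩, rfl⟩
      · intro h5; apply hbc; simpa using h5
      · intro h5; apply hba; simpa using h5
      · intro h5; apply hca; simpa using h5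
    · exfalso
      have h1 := hcol (.inl a) (by simp)
      simp only [Sum.inl.injEq, reduceCtorEq, exists_false, or_false] at h1
      exact hap h1
  · rintro ⟨⟨b', c'⟩, ⟨h1, h2, h3, h4⟩, h5⟩
    simp only [Prod.map_apply, Prod.mk.injEq] at h5
    obtain ⟨rfl, rfl⟩ := h5
    simp only at h1 h2 h3
    refine ⟨?_, ?_, ?_, h4⟩
    · simpa using h1
    · simpa using h2
    · simpa using h3

lemma deg_base : deg (Sum.elim e τ) (.inl p) = deg e p + (Bset κ n).ncard := by
  rw [deg_eq, deg_eq]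
  have hinj : Function.Injective (Prod.map Sum.inl Sum.inl : κ × κ → (κ ⊕ Fin n) × (κ ⊕ Fin n)) :=
    Sum.inl_injective.prodMap Sum.inl_injective
  rw [← Set.ncard_image_of_injective (Nb e p) hinj, ← Set.ncard_union_eq]
  · congr 1
    ext ⟨b, c⟩
    constructor
    · rintro ⟨hbc, hba, hca, hcol⟩
      rw [h _ _ _ (Ne.symm hba) (Ne.symm hca) hbc] at hcol
      rcases hcol with ⟨a', b', c', h1, h2, h3, h4⟩ | hcol
      · left
        have h1' := Sum.inl.inj h1
        subst h1'
        simp only at h2 h3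
        subst h2
        subst h3
        refine ⟨(b', c'), ⟨?_, ?_, ?_, h4⟩, rfl⟩
        · intro h5; apply hbc; simpa using h5
        · intro h5; apply hba; simpa using h5
        · intro h5; apply hca; simpa using h5
      · right
        have h2 := hcol b (by simp)
        have h3 := hcol c (by simp)
        obtain ⟨j, rfl⟩ := h2.resolve_left hba
        obtain ⟨k, rfl⟩ := h3.resolve_left hca
        refine ⟨(j, k), ?_, rfl⟩
        intro hjk
        apply hbc
        simpa using hjk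
    · rintro (⟨⟨b', c'⟩, ⟨h1, h2, h3, h4⟩, h5⟩ | ⟨⟨j, k⟩, hjk, h5⟩)
      · simp only [Prod.map_apply, Prod.mk.injEq] at h5
        obtain ⟨rfl, rfl⟩ := h5
        simp only at h1 h2 h3
        refine ⟨?_, ?_, ?_, h4⟩
        · simpa using h1
        · simpa using h2
        · simpa using h3
      · simp only [Prod.mk.injEq] at h5
        obtain ⟨rfl, rfl⟩ := h5
        simp only [Set.mem_ofPred_eq] at hjk
        have hbc : (Sum.inr j : κ ⊕ Fin n) ≠ Sum.inr k := by simpa using hjk
        refine ⟨hbc, by simp, by simp, ?_⟩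
        show Col (Sum.elim e τ) (.inl p) (.inr j) (.inr k)
        rw [h _ _ _ (by simp) (by simp) hbc]
        right
        intro z hz
        simp only [Set.mem_insert_iff, Set.mem_singleton_iff] at hz
        rcases hz with rfl | rfl | rfl
        · exact Or.inl rfl
        · exact Or.inr ⟨j, rfl⟩
        · exact Or.inr ⟨k, rfl⟩
  · rw [Set.disjoint_left]
    rintro ⟨b, c⟩ ⟨⟨b', c'⟩, _, h5⟩ ⟨⟨j, k⟩, _, h6⟩
    simp only [Prod.map_apply, Prod.mk.injEq] at h5 h6
    rw [← h6.1] at h5
    exact absurd h5.1 (by simp)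

omit [Finite κ] in
lemma deg_new (j : Fin n) : deg (Sum.elim e τ) (.inr j) = (Bset κ n).ncard := by
  classical
  rw [deg_eq]
  let σ : Equiv.Perm (κ ⊕ Fin n) := Equiv.swap (.inl p) (.inr j)
  rw [← Set.ncard_image_of_injective (Bset κ n) (Equiv.prodCongr σ σ).injective]
  congr 1
  have key : ∀ z : κ ⊕ Fin n, z ≠ .inr j → (z = .inl p ∨ ∃ k, z = .inr k) →
      ∃ k, σ (.inr k) = z := by
    rintro z hz (rfl | ⟨k, rfl⟩)
    · exact ⟨j, Equiv.swap_apply_right _ _⟩
    · exact ⟨k, Equiv.swap_apply_of_ne_of_ne (by simp) hz⟩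
  have key2 : ∀ k : Fin n, σ (.inr k) ≠ .inr j ∧ (σ (.inr k) = .inl p ∨ ∃ k', σ (.inr k) = .inr k') := by
    intro k
    by_cases hk : k = j
    · subst hk
      have : σ (.inr k) = .inl p := Equiv.swap_apply_right _ _
      rw [this]
      exact ⟨by simp, Or.inl rfl⟩
    · have hk' : (Sum.inr k : κ ⊕ Fin n) ≠ .inr j := by simpa using hk
      have : σ (.inr k) = .inr k := Equiv.swap_apply_of_ne_of_ne (by simp) hk'
      rw [this]
      exact ⟨hk', Or.inr ⟨k, rfl⟩⟩
  ext ⟨b, c⟩
  constructor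
  · rintro ⟨hbc, hba, hca, hcol⟩
    rw [h _ _ _ (Ne.symm hba) (Ne.symm hca) hbc] at hcol
    rcases hcol with ⟨a', b', c', h1, h2, h3, h4⟩ | hcol
    · exact absurd h1 (by simp)
    · obtain ⟨k, hk⟩ := key b hba (hcol b (by simp))
      obtain ⟨l, hl⟩ := key c hca (hcol c (by simp))
      refine ⟨(.inr k, .inr l), ⟨(k, l), ?_, rfl⟩, ?_⟩
      · intro hkl
        apply hbc
        show b = c
        simp only at hkl
        rw [← hk, ← hl, hkl]
      · simp only [Equiv.prodCongr_apply, Prod.map_apply, Prod.mk.injEq]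
        exact ⟨hk, hl⟩
  · rintro ⟨_, ⟨⟨k, l⟩, hkl, rfl⟩, h5⟩
    simp only [Equiv.prodCongr_apply, Prod.map_apply, Prod.mk.injEq] at h5
    obtain ⟨rfl, rfl⟩ := h5
    simp only [Set.mem_ofPred_eq] at hkl
    have hbc : σ (.inr k) ≠ σ (.inr l) := fun h => hkl (by simpa using σ.injective h)
    refine ⟨hbc, (key2 k).1, (key2 l).1, ?_⟩
    show Col (Sum.elim e τ) (.inr j) (σ (.inr k)) (σ (.inr l))
    rw [h _ _ _ (Ne.symm (key2 k).1) (Ne.symm (key2 l).1) hbc]
    right
    intro z hz
    simp only [Set.mem_insert_iff, Set.mem_singleton_iff] at hz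
    rcases hz with rfl | rfl | rfl
    · exact Or.inr ⟨j, rfl⟩
    · exact (key2 k).2
    · exact (key2 l).2

end

theorem MARK' (F : Type u) [Field F] [Infinite F] (ι : Type) [Fintype ι] [DecidableEq ι]
    (e : ι → Fin 4 → F) (hPL : PL e) (he : ∀ a, e a ≠ 0) (M : Finset ι)
    (hM : ∀ p ∈ M, 0 < deg e p) :
      ∃ (s : Type) (_ : Fintype s) (τ : s → Fin 4 → F), PL (Sum.elim e τ) ∧ (∀ j, τ j ≠ 0) ∧
        (∀ a, 0 < deg e a → 0 < deg (Sum.elim e τ) (.inl a)) ∧
        ∀ p ∈ M, 0 < deg (Sum.elim e τ) (.inl p) ∧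
          ∀ a, a ≠ .inl p → deg (Sum.elim e τ) a ≠ deg (Sum.elim e τ) (.inl p) := by
  induction M using Finset.induction_on with
  | empty =>
    refine ⟨Fin 0, inferInstance, fun j => j.elim0, ?_, fun j => j.elim0, ?_, by simp⟩
    · rintro (a | j) (b | k) hab
      · exact hPL a b (fun h => hab (by rw [h]))
      · exact k.elim0
      · exact j.elim0
      · exact k.elim0
    · intro a ha
      have := deg_comp (Sum.elim e (fun j : Fin 0 => (j.elim0 : Fin 4 → F)))
        (Equiv.sumEmpty ι (Fin 0)).symm a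
      have h2 : (Equiv.sumEmpty ι (Fin 0)).symm a = Sum.inl a := rfl
      rw [h2] at this
      rw [← this]
      exact ha
  | insert p M hpM ih =>
    obtain ⟨s, _, τ, hPL1, hne1, hpos1, hM1⟩ := ih (fun q hq => hM q (Finset.mem_insert_of_mem hq))
    have hp1 : 0 < deg (Sum.elim e τ) (.inl p) := hpos1 p (hM p (Finset.mem_insert_self _ _))
    set e1 := Sum.elim e τ with he1
    have he1ne : ∀ a, e1 a ≠ 0 := by
      rintro (a | j)
      · exact he a
      · exact hne1 j
    let D := ∑ a, deg e1 a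
    have hD : ∀ a, deg e1 a ≤ D := fun a =>
      Finset.single_le_sum (f := fun a => deg e1 a) (fun _ _ => Nat.zero_le _) (Finset.mem_univ a)
    let n := D + 2
    have hB : ∀ a, deg e1 a < (Bset (ι ⊕ s) n).ncard := by
      intro a
      rw [Bset_ncard]
      have h1 : n * n - n = (D + 2) * (D + 1) := by
        show (D + 2) * (D + 2) - (D + 2) = (D + 2) * (D + 1)
        rw [Nat.sub_eq_of_eq_add]
        ring
      rw [h1]
      have := hD a
      nlinarith
    obtain ⟨τ', hPL2, hne2, h2⟩ := TAIL F (ι ⊕ s) e1 hPL1 he1ne (.inl p) n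
    have d1 := deg_old e1 (.inl p) τ' h2
    have d2 := deg_base e1 (.inl p) τ' h2
    have d3 := deg_new e1 (.inl p) τ' h2
    set e2 := Sum.elim e1 τ' with he2
    have hB0 : 0 < (Bset (ι ⊕ s) n).ncard := lt_of_le_of_lt (Nat.zero_le _) (hB (.inl p))
    let φ : ι ⊕ (s ⊕ Fin n) ≃ (ι ⊕ s) ⊕ Fin n := (Equiv.sumAssoc ι s (Fin n)).symm
    have he3 : Sum.elim e (Sum.elim τ τ') = fun x => e2 (φ x) := by
      funext x
      rcases x with a | j | k <;> rfl
    have hdeg : ∀ x, deg (Sum.elim e (Sum.elim τ τ')) x = deg e2 (φ x) := by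
      intro x
      rw [he3]
      exact deg_comp e2 φ x
    have hφ : ∀ a : ι, φ (.inl a) = .inl (.inl a) := fun a => rfl
    refine ⟨s ⊕ Fin n, inferInstance, Sum.elim τ τ', ?_, ?_, ?_, ?_⟩
    · intro a b hab
      rw [he3]
      exact hPL2 (φ a) (φ b) (fun h => hab (φ.injective h))
    · rintro (j | k)
      · exact hne1 j
      · exact hne2 k
    · intro a ha
      rw [hdeg, hφ]
      by_cases hap : a = p
      · subst hap
        rw [d2]
        omega
      · rw [d1 _ (by simpa using hap)]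
        exact hpos1 a ha
    · intro q hq
      rw [Finset.mem_insert] at hq
      rcases hq with rfl | hq
      · rw [hdeg, hφ, d2]
        refine ⟨by omega, ?_⟩
        intro a ha
        rw [hdeg]
        have ha' : φ a ≠ .inl (.inl q) := fun h => ha (φ.injective h)
        rcases hφa : φ a with a' | j
        · rw [hφa] at ha'
          rw [d1 a' (fun h => ha' (by rw [h]))]
          have := hB a'
          omega
        · rw [d3 j]
          omega
      · have hqp : q ≠ p := fun h => hpM (h ▸ hq)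
        rw [hdeg, hφ, d1 _ (by simpa using hqp)]
        refine ⟨(hM1 q hq).1, ?_⟩
        intro a ha
        rw [hdeg]
        have ha' : φ a ≠ .inl (.inl q) := fun h => ha (φ.injective h)
        rcases hφa : φ a with a' | j
        · rw [hφa] at ha'
          by_cases h3 : a' = .inl p
          · rw [h3, d2]
            have := hB (.inl q)
            omega
          · rw [d1 a' h3]
            exact (hM1 q hq).2 a' (fun h => ha' (by rw [h]))
        · rw [d3 j]
          have := hB (.inl q)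
          omega

theorem MARK : T_MARK.{u} := by
  intro F _ _ ι _ _ e hPL he M hM
  obtain ⟨s, hs, τ, h1, h2, _, h3⟩ := MARK' F ι e hPL he M hM
  exact ⟨s, hs, τ, h1, h2, h3⟩

end Pool.Agent.H36.FS
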