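import Mathlib
import Pool.Agent.H67.FS.Targets
import Pool.Agent.H36.FS.Gen

set_option autoImplicit false

/-!
# Module NORM: normalisation of the coordinates (MP_6f7589_ag)
-/

namespace Pool.Agent.H36.FS

open Pool.Agent.H67.FS Matrix

universe u

section

variable {F : Type u} [Field F] {ι : Type}

/-- the hyperplane of the functionals vanishing at `v` -/
def annih (v : Fin 4 → F) : Submodule F (Fin 4 → F) where
  carrier := {c | c ⬝ᵥ v = 0}
  add_mem' := by
    intro a b ha hb
    simp only [Set.mem_ofPred_eq] at ha hb ⊢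
    rw [add_dotProduct, ha, hb, add_zero]
  zero_mem' := by
    simp
  smul_mem' := by
    intro t a ha
    simp only [Set.mem_ofPred_eq] at ha ⊢
    rw [smul_dotProduct, ha, smul_zero]

lemma mem_annih (v c : Fin 4 → F) : c ∈ annih v ↔ c ⬝ᵥ v = 0 := Iff.rfl

lemma annih_ne_top (v : Fin 4 → F) (hv : v ≠ 0) : annih v ≠ ⊤ := by
  intro h
  apply hv
  funext j
  have : Pi.single j 1 ∈ annih v := by rw [h]; trivial
  rw [mem_annih, single_dotProduct, one_mul] at this
  exact this

end

theorem NORM : T_NORM.{u} := by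
  intro F _ _ ι _ e hPL he
  classical
  -- the first functional
  obtain ⟨c0, hc0⟩ := exists_avoid (F := F) (s := Option ι)
    (fun i => match i with
      | none => (⊥ : Submodule F (Fin 4 → F))
      | some a => annih (e a)) (by
      rintro (_ | a)
      · exact bot_ne_top
      · exact annih_ne_top _ (he a))
  have hc0ne : c0 ≠ 0 := by
    have := hc0 none
    simpa using this
  have hc0e : ∀ a, c0 ⬝ᵥ e a ≠ 0 := fun a => hc0 (some a)
  -- the second functional
  let W : ι × ι → Fin 4 → F := fun p => (c0 ⬝ᵥ e p.1) • e p.2 - (c0 ⬝ᵥ e p.2) • e p.1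
  have hW : ∀ p : ι × ι, p.1 ≠ p.2 → W p ≠ 0 := by
    intro p hp h
    have h1 := (li2_iff _ _).mp (hPL p.1 p.2 hp) (-(c0 ⬝ᵥ e p.2)) (c0 ⬝ᵥ e p.1) (by
      rw [← h]
      simp only [W]
      module)
    exact hc0e p.1 h1.2
  obtain ⟨c1, hc1⟩ := exists_avoid (F := F) (s := Option {p : ι × ι // p.1 ≠ p.2})
    (fun i => match i with
      | none => Submodule.span F {c0}
      | some p => annih (W p.1)) (by
      rintro (_ | p)
      · have := span_ne_top_of_card (F := F) {c0} (by simp)
        simpa using this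
      · exact annih_ne_top _ (hW p.1 p.2))
  have hc1' : c1 ∉ Submodule.span F {c0} := hc1 none
  have hc1W : ∀ a b, a ≠ b → c1 ⬝ᵥ W (a, b) ≠ 0 := fun a b hab => hc1 (some ⟨(a, b), hab⟩)
  -- two more functionals
  obtain ⟨c2, hc2⟩ := exists_avoid (F := F) (s := Unit)
    (fun _ => Submodule.span F {c0, c1}) (by
      intro _
      have := span_ne_top_of_card (F := F) {c0, c1} (Finset.card_le_two.trans (by norm_num))
      simpa using this)
  obtain ⟨c3, hc3⟩ := exists_avoid (F := F) (s := Unit)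
    (fun _ => Submodule.span F {c0, c1, c2}) (by
      intro _
      have := span_ne_top_of_card (F := F) {c0, c1, c2} Finset.card_le_three
      simpa using this)
  have hc2' := hc2 ()
  have hc3' := hc3 ()
  let Φ : Matrix (Fin 4) (Fin 4) F := ![c0, c1, c2, c3]
  have hΦli : LinearIndependent F Φ.row := by
    show LinearIndependent F ![c0, c1, c2, c3]
    rw [li4_iff]
    intro x y z t h
    have ht : t = 0 := by
      by_contra ht
      apply hc3'
      have h2 : c3 = (-t⁻¹ * x) • c0 + (-t⁻¹ * y) • c1 + (-t⁻¹ * z) • c2 := by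
        have h3 : t • c3 = -(x • c0 + y • c1 + z • c2) := by
          rw [eq_neg_iff_add_eq_zero, ← h]; abel
        calc c3 = t⁻¹ • (t • c3) := by rw [smul_smul, inv_mul_cancel₀ ht, one_smul]
          _ = _ := by rw [h3]; module
      rw [h2]
      refine Submodule.add_mem _ (Submodule.add_mem _ ?_ ?_) ?_ <;>
        exact Submodule.smul_mem _ _ (Submodule.subset_span (by simp))
    subst ht
    have hz : z = 0 := by
      by_contra hz
      apply hc2'
      have h2 : c2 = (-z⁻¹ * x) • c0 + (-z⁻¹ * y) • c1 := by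
        have h3 : z • c2 = -(x • c0 + y • c1) := by
          rw [eq_neg_iff_add_eq_zero, ← h]; module
        calc c2 = z⁻¹ • (z • c2) := by rw [smul_smul, inv_mul_cancel₀ hz, one_smul]
          _ = _ := by rw [h3]; module
      rw [h2]
      refine Submodule.add_mem _ ?_ ?_ <;>
        exact Submodule.smul_mem _ _ (Submodule.subset_span (by simp))
    subst hz
    have hy : y = 0 := by
      by_contra hy
      apply hc1'
      have h2 : c1 = (-y⁻¹ * x) • c0 := by
        have h3 : y • c1 = -(x • c0) := by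
          rw [eq_neg_iff_add_eq_zero, ← h]; module
        calc c1 = y⁻¹ • (y • c1) := by rw [smul_smul, inv_mul_cancel₀ hy, one_smul]
          _ = _ := by rw [h3]; module
      rw [h2]
      exact Submodule.smul_mem _ _ (Submodule.subset_span (by simp))
    subst hy
    refine ⟨?_, rfl, rfl, rfl⟩
    have h3 : x • c0 = 0 := by rw [← h]; module
    exact (smul_eq_zero.mp h3).resolve_right hc0ne
  have hΦ : IsUnit Φ := by
    rw [← Matrix.linearIndependent_rows_iff_isUnit]
    exact hΦli
  have hker : LinearMap.ker Φ.mulVecLin = ⊥ := by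
    rw [LinearMap.ker_eq_bot]
    exact Matrix.mulVec_injective_of_isUnit hΦ
  let e' : ι → Fin 4 → F := fun a => (c0 ⬝ᵥ e a)⁻¹ • (Φ.mulVecLin (e a))
  have he'0 : ∀ a, e' a 0 = 1 := by
    intro a
    show (c0 ⬝ᵥ e a)⁻¹ * (c0 ⬝ᵥ e a) = 1
    exact inv_mul_cancel₀ (hc0e a)
  have he'1 : ∀ a, e' a 1 = (c0 ⬝ᵥ e a)⁻¹ * (c1 ⬝ᵥ e a) := fun a => rfl
  have hinj : Function.Injective (fun a => e' a 1) := by
    intro a b h
    by_contra hab
    apply hc1W a b hab
    simp only [he'1] at h
    have h0a := hc0e a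
    have h0b := hc0e b
    field_simp at h
    simp only [W]
    rw [dotProduct_sub, dotProduct_smul, dotProduct_smul, smul_eq_mul, smul_eq_mul]
    linear_combination -h
  refine ⟨e', he'0, hinj, ?_, ?_⟩
  · intro s f
    have h1 : (fun i => e' (f i)) =
        (fun i => (Units.mk0 (c0 ⬝ᵥ e (f i))⁻¹ (inv_ne_zero (hc0e _)))) •
          (fun i => Φ.mulVecLin (e (f i))) := rfl
    rw [h1, LinearIndependent.units_smul_iff]
    exact Φ.mulVecLin.linearIndependent_iff hker
  · intro o i w p v hoi how hiw hpw hei hep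
    unfold cr
    have hio : e' i 1 - e' o 1 ≠ 0 := sub_ne_zero.mpr (fun h => hoi (hinj h).symm)
    have hwp : e' w 1 - e' p 1 ≠ 0 := sub_ne_zero.mpr (fun h => hpw (hinj h).symm)
    rw [div_eq_iff (mul_ne_zero hio hwp)]
    have key : ∀ a, c1 ⬝ᵥ e a = (c0 ⬝ᵥ e a) * e' a 1 := by
      intro a
      rw [he'1, mul_inv_cancel_left₀ (hc0e a)]
    have i0 : c0 ⬝ᵥ e i = c0 ⬝ᵥ e o + c0 ⬝ᵥ e w := by rw [hei, dotProduct_add]
    have i1 : c1 ⬝ᵥ e i = c1 ⬝ᵥ e o + c1 ⬝ᵥ e w := by rw [hei, dotProduct_add]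
    have p0 : c0 ⬝ᵥ e p = c0 ⬝ᵥ e o + v * (c0 ⬝ᵥ e w) := by
      rw [hep, dotProduct_add, dotProduct_smul, smul_eq_mul]
    have p1 : c1 ⬝ᵥ e p = c1 ⬝ᵥ e o + v * (c1 ⬝ᵥ e w) := by
      rw [hep, dotProduct_add, dotProduct_smul, smul_eq_mul]
    rw [key, key, key, i0] at i1
    rw [key, key, key, p0] at p1
    have ho := hc0e o
    have hw := hc0e w
    generalize c0 ⬝ᵥ e o = lo at *
    generalize c0 ⬝ᵥ e w = lw at *
    generalize e' o 1 = mo at *
    generalize e' i 1 = mi at *
    generalize e' w 1 = mw at *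
    generalize e' p 1 = mp at *
    -- lo (mi - mo) = lw (mw - mi), lo (mp - mo) = v lw (mw - mp)
    have e1 : lo * (mi - mo) = lw * (mw - mi) := by linear_combination i1
    have e2 : lo * (mp - mo) = v * lw * (mw - mp) := by linear_combination p1
    apply mul_left_cancel₀ (mul_ne_zero ho hw)
    linear_combination (lo * (mp - mo)) * (-e1) + lo * (mi - mo) * e2

end Pool.Agent.H36.FS
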